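import Pool.Agent.Lib.MP_7d88aa_pr.Gen

/-!
Finitely dependent functions of reversible Markov chains are sequences of independent variables.
-/

set_option autoImplicit false

namespace Pool.Agent.Results.MP_7d88aa_pr.Reversible

open MeasureTheory ProbabilityTheory Pool.Agent.MP_7d88aa Pool.Agent.MP_7d88aa.Gen

/-- Let `(M i)`, `i ∈ ℤ`, be a stationary Markov chain with values in an arbitrary measurable space `S` (for example a countable one),
with the stationary law `π` and the transition kernel `κ`, and suppose that the chain is reversible. Let `f` be a measurable map from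
`S` to a measurable space `C` and suppose that the process `X i = f (M i)` is `k`-dependent for some `k`. Then the `X i` are independent
and identically distributed. In particular, if `C` is finite or countable then `X` is not a colouring: it is not true that
`X i ≠ X (i + 1)` almost surely for all `i`. -/
theorem result (Ω S C : Type) [MeasurableSpace Ω] [MeasurableSpace S] [MeasurableSpace C] (μ : Measure Ω)
    [IsProbabilityMeasure μ] (M : ℤ → Ω → S) (π : Measure S) (κ : Kernel S S) [IsMarkovKernel κ]
    (hM : IsMarkovProcess μ M π κ) (hrev : κ.IsReversible π) (f : S → C) (hf : Measurable f) (k : ℕ)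
    (hk : IsDependent μ (fun i ω => f (M i ω)) k) :
    iIndepFun (fun i ω => f (M i ω)) μ ∧
    (∀ i : ℤ, IdentDistrib (fun ω => f (M i ω)) (fun ω => f (M 0 ω)) μ μ) ∧
    (Countable C → MeasurableSingletonClass C → ¬ ∀ i : ℤ, ∀ᵐ ω ∂μ, f (M i ω) ≠ f (M (i + 1) ω)) := by
  have hπ : IsProbabilityMeasure π := by
    have h1 := hM.law 0 0 (fun _ => Set.univ) (fun _ => MeasurableSet.univ)
    refine ⟨?_⟩
    simp only [pathProb, Set.mem_univ, implies_true, Set.ofPred_true, measure_univ, Measure.restrict_univ,
      lintegral_const, one_mul] at h1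
    exact h1.symm
  have hid : ∀ i : ℤ, IdentDistrib (fun ω => f (M i ω)) (fun ω => f (M 0 ω)) μ μ := by
    intro i
    have m1 : Measurable fun ω => f (M i ω) := hf.comp (hM.meas i)
    have m0 : Measurable fun ω => f (M 0 ω) := hf.comp (hM.meas 0)
    refine ⟨m1.aemeasurable, m0.aemeasurable, ?_⟩
    ext T hT
    rw [Measure.map_apply m1 hT, Measure.map_apply m0 hT]
    exact rev_one hM hrev hf k hk i T hT
  refine ⟨rev_iIndep hM hrev hf k hk, hid, fun hC hC1 hcol => ?_⟩
  -- every colour has probability zero
  have h2 : ∀ a : C, μ {ω | f (M 0 ω) = a} = 0 := by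
    intro a
    have h3 := rev_win hM hrev hf k hk 0 2 (fun _ => {a}) (fun _ => MeasurableSet.singleton a)
    have h4 : μ {ω | ∀ j : Fin 2, f (M (0 + (j : ℕ)) ω) ∈ ({a} : Set C)} = 0 := by
      have h5 := hcol 0
      rw [ae_iff] at h5
      refine measure_mono_null ?_ h5
      intro ω hω
      have e0 := hω 0
      have e1 := hω 1
      simp only [Set.mem_ofPred_eq, not_not]
      simp only [Set.mem_singleton_iff] at e0 e1
      norm_num at e0 e1 ⊢
      rw [e0, e1]
    rw [h4, Finset.prod_const] at h3
    have h6 : μ {ω | f (M 0 ω) ∈ ({a} : Set C)} = 0 := by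
      by_contra h7
      exact pow_ne_zero _ h7 h3.symm
    exact h6
  have h3 : μ (⋃ a : C, {ω | f (M 0 ω) = a}) = 0 := measure_iUnion_null h2
  have h4 : (⋃ a : C, {ω | f (M 0 ω) = a}) = Set.univ := by
    ext ω
    simp
  rw [h4, measure_univ] at h3
  exact one_ne_zero h3

end Pool.Agent.Results.MP_7d88aa_pr.Reversible
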