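import Pool.Agent.Lib.MP_7d88aa_pr.Main

/-!
Finitely dependent colourings are not functions of Markov chains with a strong drift.
-/

set_option autoImplicit false

namespace Pool.Agent.Results.MP_7d88aa_pr.StrongDrift

open MeasureTheory Pool.Agent.MP_7d88aa

/-- Let `(M i)`, `i ∈ ℤ`, be a stationary Markov chain with a countable state space `S` and the transition matrix `P`, and suppose that
for some function `w ≥ 1` on `S` the sum over all states `x` of `E (w (M 1) | M 0 = x) / w x` is finite. Let `f` map `S` to a finite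
set of colours and suppose that the process `X i = f (M i)` is `k`-dependent. Then for every `n ≥ 1` there is a word `u` of length `n`
such that for every `m` the probability that `X 0, …, X (n m - 1)` is `u`, repeated `m` times, is positive. In particular (`n = 1`)
the process `X` is not a colouring: it is not true that `X i ≠ X (i + 1)` almost surely for all `i`. -/
theorem result (Ω S : Type) [MeasurableSpace Ω] [Countable S] (μ : Measure Ω) [IsProbabilityMeasure μ] (M : ℤ → Ω → S)
    (p : S → ℝ) (P : S → S → ℝ) (hM : IsMarkovChain μ M p P) (w : S → ℝ) (hw : ∀ x, 1 ≤ w x)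
    (hPw : ∀ x, Summable fun y => P x y * w y) (hdrift : Summable fun x => (∑' y, P x y * w y) / w x)
    (q : ℕ) (f : S → Fin q) (k : ℕ) (hk : IsDependent μ (fun i ω => f (M i ω)) k) :
    (∀ n : ℕ, 1 ≤ n → ∃ u : Fin n → Fin q, ∀ m : ℕ,
      0 < μ {ω | ∀ t : ℕ, t < m → ∀ j : Fin n, f (M ((n * t + j : ℕ) : ℤ) ω) = u j}) ∧
    ¬ ∀ i : ℤ, ∀ᵐ ω ∂μ, f (M i ω) ≠ f (M (i + 1) ω) := by
  have h1 := fun n hn => main_thm hM ⟨hM.nonneg, hM.row, hw, hPw, hdrift⟩ f k hk n hn
  refine ⟨h1, fun hcol => ?_⟩
  obtain ⟨u, hu⟩ := h1 1 le_rfl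
  have h2 := hu 2
  have h3 := hcol 0
  rw [ae_iff] at h3
  refine h2.ne' (measure_mono_null ?_ h3)
  intro ω hω
  have e0 := hω 0 (by norm_num) 0
  have e1 := hω 1 (by norm_num) 0
  simp only [Set.mem_ofPred_eq, not_not]
  norm_num at e0 e1 ⊢
  rw [e0, e1]

end Pool.Agent.Results.MP_7d88aa_pr.StrongDrift
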